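import Mathlib
import Pool.Agent.H964.QC.Stm2

/-! # Project QC (helper964): INIT, the first block -/

set_option autoImplicit false

open MeasureTheory ProbabilityTheory Filter Finset

namespace Pool.Agent.H264.QC

open Pool.Agent.H964.QC

/-- independence as an iterated integral -/
theorem frz : S_FRZ := by
  intro Ω E1 E2 F _ _ _ _ _ _ _ _ _ P _ X Y f hX hY hf hind hint
  have hmap : P.map (fun ω => (X ω, Y ω)) = (P.map X).prod (P.map Y) :=
    (indepFun_iff_map_prod_eq_prod_map_map hX.aemeasurable hY.aemeasurable).1 hind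
  have : IsProbabilityMeasure (P.map X) := Measure.isProbabilityMeasure_map hX.aemeasurable
  have : IsProbabilityMeasure (P.map Y) := Measure.isProbabilityMeasure_map hY.aemeasurable
  have hfs : StronglyMeasurable f := hf.stronglyMeasurable
  have hint' : Integrable f ((P.map X).prod (P.map Y)) := by
    rw [← hmap]
    exact (integrable_map_measure hfs.aestronglyMeasurable (hX.prodMk hY).aemeasurable).2 hint
  have hsec : ∀ a : E1, ∫ ω', f (a, Y ω') ∂P = ∫ y, f (a, y) ∂(P.map Y) := by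
    intro a
    rw [integral_map hY.aemeasurable]
    exact (hfs.comp_measurable measurable_prodMk_left).aestronglyMeasurable
  refine ⟨?_, ?_, ?_⟩
  · calc ∫ ω, f (X ω, Y ω) ∂P = ∫ p, f p ∂(P.map (fun ω => (X ω, Y ω))) := by
          rw [integral_map (hX.prodMk hY).aemeasurable hfs.aestronglyMeasurable]
      _ = ∫ x, ∫ y, f (x, y) ∂(P.map Y) ∂(P.map X) := by
          rw [hmap, integral_prod _ hint']
      _ = ∫ ω, (∫ y, f (X ω, y) ∂(P.map Y)) ∂P := by
          rw [integral_map hX.aemeasurable]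
          exact hint'.integral_prod_left.aestronglyMeasurable
      _ = _ := by simp_rw [hsec]
  · simp_rw [hsec]
    have h1 := hint'.integral_prod_left
    exact (integrable_map_measure h1.aestronglyMeasurable hX.aemeasurable).1 h1
  · have h2 := hint'.prod_right_ae
    have h3 := ae_of_ae_map hX.aemeasurable h2
    filter_upwards [h3] with ω hω
    exact (integrable_map_measure hω.aestronglyMeasurable hY.aemeasurable).1 hω

theorem norm_exp_I_sub_one_le (t : ℝ) : ‖Complex.exp (Complex.I * (t : ℂ)) - 1‖ ≤ |t| := by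
  have h := Real.norm_exp_I_mul_ofReal_sub_one_le (x := t)
  simpa [Real.norm_eq_abs] using h

theorem norm_exp_I_sub_one_le_two (t : ℝ) : ‖Complex.exp (Complex.I * (t : ℂ)) - 1‖ ≤ 2 := by
  have h1 : ‖Complex.exp (Complex.I * (t : ℂ))‖ = 1 := by
    rw [mul_comm]; exact Complex.norm_exp_ofReal_mul_I t
  calc ‖Complex.exp (Complex.I * (t : ℂ)) - 1‖ ≤ ‖Complex.exp (Complex.I * (t : ℂ))‖ + ‖(1 : ℂ)‖ :=
        norm_sub_le _ _
    _ = 2 := by rw [h1, norm_one]; norm_num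

theorem abs_log_one_add_le {x : ℝ} (hx : -(1 / 2) ≤ x) : |Real.log (1 + x)| ≤ 2 * |x| := by
  have h0 : 0 < 1 + x := by linarith
  rcases le_total 0 x with h | h
  · have h1 : 0 ≤ Real.log (1 + x) := Real.log_nonneg (by linarith)
    have h2 : Real.log (1 + x) ≤ (1 + x) - 1 := Real.log_le_sub_one_of_pos h0
    rw [abs_of_nonneg h1, abs_of_nonneg h]
    linarith
  · have h1 : Real.log (1 + x) ≤ 0 := Real.log_nonpos h0.le (by linarith)
    have h2 : 1 - (1 + x)⁻¹ ≤ Real.log (1 + x) := Real.one_sub_inv_le_log_of_pos h0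
    rw [abs_of_nonpos h1, abs_of_nonpos h]
    have h3 : (1 + x)⁻¹ - 1 ≤ 2 * (-x) := by
      have h4 : (1 + x)⁻¹ - 1 = (-x) * (1 + x)⁻¹ := by
        field_simp
        ring
      have h5 : (1 + x)⁻¹ ≤ 2 := by
        rw [inv_le_comm₀ h0 (by norm_num)]
        linarith
      rw [h4]
      nlinarith
    linarith

/-- characteristic function of a small variable -/
theorem char_bd {Ω : Type} [MeasurableSpace Ω] (P : Measure Ω) [IsProbabilityMeasure P]
    (X : Ω → ℝ) (hX : Measurable X) (hi : Integrable (fun ω => X ω ^ 2) P) (v : ℝ)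
    (hv : ∫ ω, X ω ^ 2 ∂P ≤ v) (u c δ : ℝ) (hδ : 0 < δ) :
    ‖(∫ ω, Complex.exp (Complex.I * (u * (Real.log (1 + X ω) + c) : ℝ)) ∂P) - 1‖ ≤
      |u| * (δ + v / δ + |c|) + 8 * v := by
  have hm : Measurable (fun ω => Complex.exp (Complex.I * (u * (Real.log (1 + X ω) + c) : ℝ))) := by
    have h1 : Measurable (fun ω => u * (Real.log (1 + X ω) + c)) := by
      have := (Real.measurable_log.comp (hX.const_add 1)).add_const c
      exact this.const_mul u
    exact Complex.measurable_exp.comp ((Complex.measurable_ofReal.comp h1).const_mul _)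
  have hint : Integrable (fun ω => Complex.exp (Complex.I * (u * (Real.log (1 + X ω) + c) : ℝ))) P := by
    refine Integrable.of_bound hm.aestronglyMeasurable 1 (ae_of_all _ fun ω => ?_)
    rw [mul_comm]
    exact (Complex.norm_exp_ofReal_mul_I _).le
  have e1 : (∫ ω, Complex.exp (Complex.I * (u * (Real.log (1 + X ω) + c) : ℝ)) ∂P) - 1 =
      ∫ ω, (Complex.exp (Complex.I * (u * (Real.log (1 + X ω) + c) : ℝ)) - 1) ∂P := by
    rw [integral_sub hint (integrable_const _)]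
    simp
  rw [e1]
  have hgi : Integrable (fun ω => |u| * (δ + X ω ^ 2 / δ + |c|) + 8 * X ω ^ 2) P := by
    exact ((((integrable_const δ).add (hi.div_const δ)).add (integrable_const _)).const_mul _).add
      (hi.const_mul 8)
  have hb : ∀ ω, ‖Complex.exp (Complex.I * (u * (Real.log (1 + X ω) + c) : ℝ)) - 1‖ ≤
      |u| * (δ + X ω ^ 2 / δ + |c|) + 8 * X ω ^ 2 := by
    intro ω
    have hx2 : 0 ≤ X ω ^ 2 := sq_nonneg _
    have hq : 0 ≤ X ω ^ 2 / δ := by positivity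
    have hu : 0 ≤ |u| := abs_nonneg u
    rcases le_or_gt (-(1 / 2)) (X ω) with h | h
    · have h1 := norm_exp_I_sub_one_le (u * (Real.log (1 + X ω) + c))
      have h2 : |u * (Real.log (1 + X ω) + c)| ≤ |u| * (2 * |X ω| + |c|) := by
        rw [abs_mul]
        refine mul_le_mul_of_nonneg_left ?_ hu
        exact (abs_add_le _ _).trans (by linarith [abs_log_one_add_le h])
      have h3 : 2 * |X ω| ≤ δ + X ω ^ 2 / δ := by
        have h4 : 0 ≤ (|X ω| - δ) ^ 2 := sq_nonneg _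
        have h5 : X ω ^ 2 = |X ω| ^ 2 := (sq_abs _).symm
        rw [← sub_nonneg]
        have h6 : δ + X ω ^ 2 / δ - 2 * |X ω| = (|X ω| - δ) ^ 2 / δ := by
          rw [h5]
          field_simp
          ring
        rw [h6]
        positivity
      have h7 : |u| * (2 * |X ω| + |c|) ≤ |u| * (δ + X ω ^ 2 / δ + |c|) :=
        mul_le_mul_of_nonneg_left (by linarith) hu
      have h8 : (0 : ℝ) ≤ 8 * X ω ^ 2 := by positivity
      linarith
    · have h1 := norm_exp_I_sub_one_le_two (u * (Real.log (1 + X ω) + c))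
      have h2 : 1 / 4 ≤ X ω ^ 2 := by nlinarith
      have h3 : 0 ≤ |u| * (δ + X ω ^ 2 / δ + |c|) := by positivity
      linarith
  calc ‖∫ ω, (Complex.exp (Complex.I * (u * (Real.log (1 + X ω) + c) : ℝ)) - 1) ∂P‖
      ≤ ∫ ω, (|u| * (δ + X ω ^ 2 / δ + |c|) + 8 * X ω ^ 2) ∂P :=
        norm_integral_le_of_norm_le hgi (ae_of_all _ hb)
    _ = |u| * (δ + (∫ ω, X ω ^ 2 ∂P) / δ + |c|) + 8 * ∫ ω, X ω ^ 2 ∂P := by
        have i1 : Integrable (fun ω => X ω ^ 2 / δ) P := hi.div_const δ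
        have i2 : Integrable (fun ω => δ + X ω ^ 2 / δ) P := (integrable_const δ).add i1
        have i3 : Integrable (fun ω => δ + X ω ^ 2 / δ + |c|) P := i2.add (integrable_const _)
        rw [integral_add (i3.const_mul _) (hi.const_mul 8), integral_const_mul, integral_const_mul,
          integral_add i2 (integrable_const _), integral_add (integrable_const _) i1,
          integral_div]
        simp
    _ ≤ |u| * (δ + v / δ + |c|) + 8 * v := by
        have hu : 0 ≤ |u| := abs_nonneg u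
        have h1 : (∫ ω, X ω ^ 2 ∂P) / δ ≤ v / δ := div_le_div_of_nonneg_right hv hδ.le
        have h2 := mul_le_mul_of_nonneg_left h1 hu
        nlinarith

theorem RR_mono (hRR : S_RR) {a b : ℕ} (h : a ≤ b) : RR a ≤ RR b := by
  unfold RR
  refine Finset.sum_le_sum_of_subset_of_nonneg (Finset.Icc_subset_Icc le_rfl h) ?_
  intro i _ _
  exact (hRR.1 i).le

theorem wt_ind {V : Type} [Fintype V] [DecidableEq V] {C0 : ℝ} {N0 : ℕ} (W : Wlk V C0 N0) (x0 : V)
    (m : ℕ) (z : V) : wt W (fun x => if x = x0 then 1 else 0) m z = W.K m x0 z := by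
  unfold wt
  simp

theorem ov_ind {V : Type} [Fintype V] [DecidableEq V] {C0 : ℝ} {N0 : ℕ} (W : Wlk V C0 N0) (x0 : V)
    (m : ℕ) (hm : m ≤ N0) : ov W (fun x => if x = x0 then 1 else 0) m = rr m := by
  unfold ov
  simp_rw [wt_ind]
  rw [← W.K_ret m x0 hm, two_mul, W.K_add]
  refine Finset.sum_congr rfl fun z _ => ?_
  rw [sq, W.K_symm m z x0]

theorem aux_sq {x : ℝ} (h : x < -(1 / 2)) : (1 / 4 : ℝ) ≤ x ^ 2 := by nlinarith

theorem aux_q {q : ℝ} (h0 : 0 < q) (h1 : q ≤ 1) : q ^ 2 ≤ q := by nlinarith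

theorem aux_u (u : ℝ) : |u| ≤ 1 + u ^ 4 ∧ u ^ 2 ≤ 1 + u ^ 4 := by
  have h1 : |u| ^ 2 = u ^ 2 := sq_abs u
  have h2 : 0 ≤ |u| := abs_nonneg u
  have h3 : |u| ≤ 1 / 2 + 1 / 2 * |u| ^ 2 := by nlinarith [sq_nonneg (|u| - 1)]
  have h4 : |u| ^ 2 ≤ 1 / 2 + 1 / 2 * u ^ 4 := by rw [h1]; nlinarith [sq_nonneg (u ^ 2 - 1)]
  have h5 : 0 ≤ u ^ 4 := by positivity
  constructor
  · linarith
  · linarith

theorem aux_A {A R L s : ℝ} (hs : 0 < s) (hsA : s * A = 1) (h17 : 17 ≤ A) (hR2 : R ≤ Real.sqrt A + 1)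
    (hL : L = A - R) : R ≤ A / 2 ∧ A / 2 ≤ L ∧ s * R < 1 ∧ R / L ≤ 4 * (1 / Real.sqrt A) := by
  have hApos : 0 < A := by linarith
  have hsq : Real.sqrt A * Real.sqrt A = A := Real.mul_self_sqrt hApos.le
  have hsq4 : 4 ≤ Real.sqrt A := by
    rw [show (4 : ℝ) = Real.sqrt 16 by rw [show (16 : ℝ) = 4 ^ 2 by norm_num]; simp]
    exact Real.sqrt_le_sqrt (by linarith)
  have hsqA : Real.sqrt A ≤ A / 4 := by nlinarith
  have hRA : R ≤ A / 2 := by linarith
  have hLA : A / 2 ≤ L := by linarith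
  refine ⟨hRA, hLA, ?_, ?_⟩
  · have h1 : s * R ≤ s * (A / 2) := mul_le_mul_of_nonneg_left hRA hs.le
    have h2 : s * (A / 2) = 1 / 2 := by linear_combination hsA / 2
    linarith
  · have hLpos : 0 < L := by linarith
    rw [show 4 * (1 / Real.sqrt A) = 4 / Real.sqrt A by ring, div_le_div_iff₀ hLpos (by linarith)]
    have h1 : R ≤ 2 * Real.sqrt A := by linarith
    have h2 : R * Real.sqrt A ≤ 2 * Real.sqrt A * Real.sqrt A :=
      mul_le_mul_of_nonneg_right h1 (Real.sqrt_nonneg _)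
    have h3 : 2 * Real.sqrt A * Real.sqrt A = 2 * A := by rw [mul_assoc, hsq]
    linarith

theorem aux_fin {Cb q u : ℝ} (hCb : 1 ≤ Cb) (h0 : 0 < q) (h1 : q ≤ 1) :
    (2 * (Cb * q + 16 * q ^ 2)) + (|u| * (7 * q) + 32 * q) + u ^ 2 * (2 * q) ≤
      (2 * Cb + 73) * (1 + u ^ 4) * q := by
  have hq2q := aux_q h0 h1
  obtain ⟨hu1, hu2⟩ := aux_u u
  have hu4 : 0 ≤ u ^ 4 := by positivity
  have k1 : |u| * (7 * q) ≤ (1 + u ^ 4) * (7 * q) := mul_le_mul_of_nonneg_right hu1 (by positivity)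
  have k2 : u ^ 2 * (2 * q) ≤ (1 + u ^ 4) * (2 * q) := mul_le_mul_of_nonneg_right hu2 (by positivity)
  have k3 : 2 * (Cb * q + 16 * q ^ 2) + 32 * q ≤ (1 + u ^ 4) * ((2 * Cb + 64) * q) := by
    have h1 : 2 * (Cb * q + 16 * q ^ 2) + 32 * q ≤ (2 * Cb + 64) * q := by linarith
    have h2 : 0 ≤ u ^ 4 * ((2 * Cb + 64) * q) := by
      have : 0 ≤ 2 * Cb + 64 := by linarith
      positivity
    linarith
  have k4 : (2 * Cb + 73) * (1 + u ^ 4) * q = (1 + u ^ 4) * ((2 * Cb + 64) * q) + (1 + u ^ 4) * (7 * q)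
      + (1 + u ^ 4) * (2 * q) := by ring
  rw [k4]
  linarith

theorem t_INIT : S_INIT := by
  intro hMEAS hIND hDUAL hCHN hGM hRR hM2 hBC hUU hOV hCLN C0 κ hC0 hκ
  obtain ⟨Cb, hCb1, hBCC⟩ := hBC hRR hOV hCLN hMEAS hM2 hDUAL C0 κ hC0 hκ
  refine ⟨2 * Cb + 73, Cb + 16, by linarith, by linarith, ?_⟩
  intro V _ _ N0 W Ω _ P _ s2 η x0 T j L' Ls u e hs2 hN hcls hd hL' hL0 hLs hR1 hR2 hT he hgood
  -- numbers
  obtain ⟨A, hA⟩ : ∃ A : ℝ, A = 1 / s2 := ⟨_, rfl⟩
  have hApos : 0 < A := by rw [hA]; positivity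
  have hs2A : s2 * A = 1 := by rw [hA]; field_simp
  rw [← hA] at hL' hR1 hR2 ⊢
  have hRT0 : 0 ≤ RR T := (Real.sqrt_nonneg _).trans hR1
  have hLs16 : 17 ≤ Ls := by linarith
  have hAL : L' ≤ A := by linarith
  have hA17 : 17 ≤ A := by linarith
  obtain ⟨hRA, hLA, hsR, hratio⟩ := aux_A hs2 hs2A hA17 hR2 hL'
  have hL'pos : 0 < L' := by linarith
  have hRL : RR T ≤ L' := by linarith
  have hT1 : 1 ≤ T := by
    rcases Nat.eq_zero_or_pos T with h | h
    · subst h
      have : RR 0 = 0 := by simp [RR]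
      rw [this] at hR1
      have := Real.sqrt_pos.2 hApos
      linarith
    · exact h
  have hTN : T ≤ N0 := by omega
  have hsL : 1 - s2 * RR T = s2 * L' := by rw [hL']; linear_combination hs2A.symm
  -- the scale q
  obtain ⟨q, hq⟩ : ∃ q : ℝ, q = Ls ^ (-(1 / 4) : ℝ) := ⟨_, rfl⟩
  have hLspos : 0 < Ls := by linarith
  have hqpos : 0 < q := by rw [hq]; exact Real.rpow_pos_of_pos hLspos _
  have hq4 : q ^ 4 = 1 / Ls := by
    rw [hq, ← Real.rpow_natCast, ← Real.rpow_mul hLspos.le]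
    norm_num
    rw [Real.rpow_neg_one]
  have hq1 : q ≤ 1 := by
    rw [hq]
    exact Real.rpow_le_one_of_one_le_of_nonpos (by linarith) (by norm_num)
  have hq2 : q ^ 2 = 1 / Real.sqrt Ls := by
    have h1 : q ^ 2 = Real.sqrt (q ^ 4) := by
      rw [show q ^ 4 = (q ^ 2) ^ 2 by ring, Real.sqrt_sq (by positivity)]
    rw [h1, hq4, one_div, Real.sqrt_inv, one_div]
  rw [← hq]
  have hAq : 1 / Real.sqrt A ≤ q ^ 2 := by
    rw [hq2]
    exact one_div_le_one_div_of_le (Real.sqrt_pos.2 hLspos) (Real.sqrt_le_sqrt (by linarith))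
  have hratq : RR T / L' ≤ 4 * q ^ 2 := by
    linarith
  have hLq : 1 / L' ≤ q := by
    have h1 : 1 / L' ≤ 1 / Ls := one_div_le_one_div_of_le hLspos hLs
    rw [← hq4] at h1
    have h2 : q ^ 4 ≤ q := by
      have : q ^ 4 ≤ q ^ 1 := pow_le_pow_of_le_one hqpos.le hq1 (by norm_num)
      simpa using this
    exact h1.trans h2
  have hlog0 : 0 ≤ Real.log (A / L') := Real.log_nonneg (by rw [le_div_iff₀ hL'pos]; linarith)
  have hlog1 : Real.log (A / L') ≤ RR T / L' := by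
    have h1 : A / L' = 1 + RR T / L' := by
      rw [hL']
      have : A - RR T ≠ 0 := by rw [← hL']; exact hL'pos.ne'
      field_simp
      ring
    have h2 := Real.log_le_sub_one_of_pos (x := A / L') (by positivity)
    linarith
  -- weight
  obtain ⟨w, hw⟩ : ∃ w : V → ℝ, w = fun x => if x = x0 then 1 else 0 := ⟨_, rfl⟩
  have hw0 : ∀ x, 0 ≤ w x := by
    intro x; rw [hw]; dsimp only; split_ifs <;> norm_num
  have hwsum : ∑ x, w x = 1 := by rw [hw]; simp
  have hwcls : ∀ x, w x ≠ 0 → W.cls 0 x := by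
    intro x hx
    rw [hw] at hx
    have : x = x0 := by
      by_contra h
      simp [h] at hx
    rw [this]; exact hcls
  have hwd : ∑ x, w x * W.d x = 0 := by
    rw [hw]; simp [hd]
  have hov : ∀ m ∈ Finset.Icc 1 T, ov W w m = rr m := by
    intro m hm
    rw [Finset.mem_Icc] at hm
    rw [hw]; exact ov_ind W x0 m (by omega)
  rw [← hw]
  -- block noise
  obtain ⟨hI1, hI2, hN'⟩ := hIND V Ω P s2 κ η hN j
  obtain ⟨η', hη'⟩ : ∃ η' : ℕ → V → Ω → ℝ, η' = fun n v => η (j + n) v := ⟨_, rfl⟩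
  rw [← hη'] at hN'
  have hcfg : ∀ ω, sft j (cfg η ω) = cfg η' ω := by
    intro ω; rw [hη']; rfl
  obtain ⟨hME1, hME2, hME3, hME4, hME5, hME6, hME7, hME8, hME9, hME10, hME11⟩ :=
    hMEAS V C0 N0 W Ω P s2 κ η' hN'
  obtain ⟨hm0, hm2, hm3⟩ := hM2 V C0 N0 W Ω P s2 κ η' hs2.le hN' w hw0 T hTN
  -- the random variable
  obtain ⟨X, hX⟩ : ∃ X : Ω → ℝ, X = fun ω => XX W w T (cfg η' ω) T := ⟨_, rfl⟩
  have hXeq : X = fun ω => (∑ z, w z * Zr W (cfg η' ω) T z) - ∑ z, w z := by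
    rw [hX]; funext ω
    exact (hDUAL V C0 N0 W (cfg η' ω) w j T).2.2.1
  have hXm : Measurable X := by
    rw [hXeq]
    refine Measurable.sub_const ?_ _
    refine Finset.measurable_sum _ fun z _ => ?_
    exact ((hME4 T z).comp hME7).const_mul _
  have hXL : MemLp X 2 P := by
    rw [hXeq]
    refine MemLp.sub ?_ (memLp_const _)
    refine memLp_finsetSum _ fun z _ => ?_
    exact ((hME8 T z).mono_exponent (by norm_num)).const_mul _
  have hX2 : Integrable (fun ω => X ω ^ 2) P := hXL.integrable_sq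
  have hv : ∫ ω, X ω ^ 2 ∂P ≤ 4 * q ^ 2 := by
    refine le_trans ?_ hratq
    have h1 : ∫ ω, X ω ^ 2 ∂P = s2 * ∑ m ∈ Finset.Icc 1 T, ov W w m * UU s2 (T - m) := by
      rw [hX]; exact hm2
    rw [h1]
    have h2 : ∑ m ∈ Finset.Icc 1 T, ov W w m * UU s2 (T - m) ≤
        ∑ m ∈ Finset.Icc 1 T, rr m * (1 / (1 - s2 * RR T)) := by
      refine Finset.sum_le_sum fun m hm => ?_
      rw [hov m hm]
      refine mul_le_mul_of_nonneg_left ?_ (hRR.1 m).le
      have h3 : RR (T - m) ≤ RR T := RR_mono hRR (Nat.sub_le _ _)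
      have h4 : s2 * RR (T - m) ≤ s2 * RR T := mul_le_mul_of_nonneg_left h3 hs2.le
      have h5 := (hUU.1 s2 (T - m) hs2.le (by linarith)).2
      refine h5.trans ?_
      exact one_div_le_one_div_of_le (by linarith) (by linarith)
    have h6 : ∑ m ∈ Finset.Icc 1 T, rr m * (1 / (1 - s2 * RR T)) = RR T * (1 / (1 - s2 * RR T)) := by
      rw [← Finset.sum_mul]; rfl
    rw [h6] at h2
    calc s2 * ∑ m ∈ Finset.Icc 1 T, ov W w m * UU s2 (T - m)
        ≤ s2 * (RR T * (1 / (1 - s2 * RR T))) := mul_le_mul_of_nonneg_left h2 hs2.le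
      _ = RR T / L' := by
          rw [hsL]
          field_simp
  -- bad event
  have hcheb : P.real {ω | X ω < -(1 / 2)} ≤ 16 * q ^ 2 := by
    have h1 : P.real {ω | X ω < -(1 / 2)} ≤ P.real {ω | (1 / 4 : ℝ) ≤ X ω ^ 2} := by
      refine measureReal_mono ?_ (measure_ne_top _ _)
      intro ω hω
      simp only [Set.mem_ofPred_eq] at hω ⊢
      exact aux_sq hω
    have h2 := mul_meas_ge_le_integral_of_nonneg (μ := P) (f := fun ω => X ω ^ 2)
      (ae_of_all _ fun ω => sq_nonneg _) hX2 (1 / 4)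
    linarith
  have hbad : P.real {ω | ¬ Good W T L'
      (fun z => fwd W (cfg η' ω) T w z / ∑ x, fwd W (cfg η' ω) T w x)} ≤ Cb * q + 16 * q ^ 2 := by
    have h1 := hBCC V N0 W Ω P s2 η' w 0 T L' L' hs2 hN' hT1 (Nat.zero_le _)
      (by rw [zero_add]; exact hT) (by rw [zero_add, ← hA]; exact hL') (by linarith) (by linarith)
      hw0 hwsum hwcls (by rw [hwd]; positivity)
      (by
        rw [Finset.sum_congr rfl hov]
        exact hRL)
    rw [zero_add] at h1
    refine h1.trans ?_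
    have h2 : Cb / L' ≤ Cb * q := by
      rw [show Cb / L' = Cb * (1 / L') by ring]
      exact mul_le_mul_of_nonneg_left hLq (by linarith)
    have h3 : P.real {ω | XX W w T (cfg η' ω) T < -(1 / 2)} ≤ 16 * q ^ 2 := by
      rw [hX] at hcheb; exact hcheb
    linarith
  -- the chain
  obtain ⟨r, hr⟩ : ∃ r : ℝ, r = -(u ^ 2 / 2 * Real.log (L' / Ls)) := ⟨_, rfl⟩
  have hlogL : 0 ≤ Real.log (L' / Ls) := Real.log_nonneg (by rw [le_div_iff₀ hLspos]; linarith)
  have hr0 : r ≤ 0 := by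
    rw [hr]
    have : 0 ≤ u ^ 2 / 2 * Real.log (L' / Ls) := by positivity
    linarith
  have hρ : ‖Complex.exp (r : ℂ)‖ ≤ 1 := by
    rw [Complex.norm_exp, Complex.ofReal_re]
    exact Real.exp_le_one_iff.2 hr0
  have hchain := hCHN hMEAS hIND frz hDUAL V C0 N0 W Ω P s2 κ η w j T u (1 / 2 * Real.log (A / L'))
    (1 / 2 * Real.log (L' / Ls)) e (Cb * q + 16 * q ^ 2) (Complex.exp (r : ℂ))
    {w' | Good W T L' w'} hN hw0 hwsum (hGM V C0 N0 W T L') hρ he
    (by
      intro w' hw'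
      rw [hr]
      exact hgood w' hw')
    (by
      simp_rw [hcfg]
      exact hbad)
  have hlogsum : 1 / 2 * Real.log (A / L') + 1 / 2 * Real.log (L' / Ls) = 1 / 2 * Real.log (A / Ls) := by
    rw [← mul_add, ← Real.log_mul (by positivity) (by positivity)]
    congr 2
    field_simp
  rw [hlogsum] at hchain
  simp_rw [hcfg] at hchain
  -- characteristic function
  have hch := char_bd P X hXm hX2 (4 * q ^ 2) hv u (1 / 2 * Real.log (A / L')) q hqpos
  have hIeq : (∫ ω, Complex.exp (Complex.I * (u * (Real.log (1 + XX W w T (cfg η' ω) T) +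
      1 / 2 * Real.log (A / L')) : ℝ)) ∂P) =
      ∫ ω, Complex.exp (Complex.I * (u * (Real.log (1 + X ω) + 1 / 2 * Real.log (A / L')) : ℝ)) ∂P := by
    rw [hX]
  rw [hIeq] at hchain
  obtain ⟨I, hI⟩ : ∃ I : ℂ, I = ∫ ω, Complex.exp (Complex.I * (u * (Real.log (1 + X ω) +
      1 / 2 * Real.log (A / L')) : ℝ)) ∂P := ⟨_, rfl⟩
  rw [← hI] at hchain hch
  have hlq : Real.log (A / L') ≤ 4 * q ^ 2 := hlog1.trans hratq
  have hq2q : q ^ 2 ≤ q := aux_q hqpos hq1
  have hch2 : ‖I - 1‖ ≤ |u| * (7 * q) + 32 * q := by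
    refine hch.trans ?_
    have h1 : 4 * q ^ 2 / q = 4 * q := by field_simp
    have h2 : |1 / 2 * Real.log (A / L')| ≤ 2 * q := by
      rw [abs_of_nonneg (by positivity)]
      linarith
    rw [h1]
    have h3 : |u| * (q + 4 * q + |1 / 2 * Real.log (A / L')|) ≤ |u| * (7 * q) :=
      mul_le_mul_of_nonneg_left (by linarith) (abs_nonneg u)
    linarith
  have hexp : ‖Complex.exp (r : ℂ) - Complex.exp ((-(u ^ 2 / 2 * Real.log (A / Ls)) : ℝ) : ℂ)‖ ≤
      u ^ 2 * (2 * q) := by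
    have h1 : -(u ^ 2 / 2 * Real.log (A / Ls)) = r + (-(u ^ 2 / 2 * Real.log (A / L'))) := by
      rw [hr]
      linear_combination u ^ 2 * hlogsum
    rw [h1, Complex.ofReal_add, Complex.exp_add]
    have h2 : Complex.exp (r : ℂ) - Complex.exp (r : ℂ) * Complex.exp ((-(u ^ 2 / 2 * Real.log (A / L')) : ℝ) : ℂ) =
        Complex.exp (r : ℂ) * (1 - Complex.exp ((-(u ^ 2 / 2 * Real.log (A / L')) : ℝ) : ℂ)) := by ring
    rw [h2, norm_mul]
    have h3 : ‖1 - Complex.exp ((-(u ^ 2 / 2 * Real.log (A / L')) : ℝ) : ℂ)‖ ≤ u ^ 2 * (2 * q) := by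
      rw [← Complex.ofReal_exp, ← Complex.ofReal_one, ← Complex.ofReal_sub, Complex.norm_real,
        Real.norm_eq_abs]
      have h4 : 0 ≤ u ^ 2 / 2 * Real.log (A / L') := by positivity
      have h5 : Real.exp (-(u ^ 2 / 2 * Real.log (A / L'))) ≤ 1 := Real.exp_le_one_iff.2 (by linarith)
      have h6 := Real.add_one_le_exp (-(u ^ 2 / 2 * Real.log (A / L')))
      rw [abs_of_nonneg (by linarith)]
      have h7 : u ^ 2 / 2 * Real.log (A / L') ≤ u ^ 2 / 2 * (4 * q ^ 2) :=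
        mul_le_mul_of_nonneg_left hlq (by positivity)
      have h8 : u ^ 2 / 2 * (4 * q ^ 2) ≤ u ^ 2 / 2 * (4 * q) :=
        mul_le_mul_of_nonneg_left (by linarith) (by positivity)
      linarith
    calc ‖Complex.exp (r : ℂ)‖ * ‖1 - Complex.exp ((-(u ^ 2 / 2 * Real.log (A / L')) : ℝ) : ℂ)‖
        ≤ 1 * (u ^ 2 * (2 * q)) := mul_le_mul hρ h3 (norm_nonneg _) zero_le_one
      _ = _ := one_mul _
  -- conclusion
  have htri : ‖chi W P η u (1 / 2 * Real.log (A / Ls)) (j + T) w -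
      Complex.exp ((-(u ^ 2 / 2 * Real.log (A / Ls)) : ℝ) : ℂ)‖ ≤
      (e + 2 * (Cb * q + 16 * q ^ 2)) + (|u| * (7 * q) + 32 * q) + u ^ 2 * (2 * q) := by
    have h1 : chi W P η u (1 / 2 * Real.log (A / Ls)) (j + T) w -
        Complex.exp ((-(u ^ 2 / 2 * Real.log (A / Ls)) : ℝ) : ℂ) =
        (chi W P η u (1 / 2 * Real.log (A / Ls)) (j + T) w - I * Complex.exp (r : ℂ)) +
        (I - 1) * Complex.exp (r : ℂ) +
        (Complex.exp (r : ℂ) - Complex.exp ((-(u ^ 2 / 2 * Real.log (A / Ls)) : ℝ) : ℂ)) := by ring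
    rw [h1]
    have h2 : ‖(I - 1) * Complex.exp (r : ℂ)‖ ≤ |u| * (7 * q) + 32 * q := by
      rw [norm_mul]
      calc ‖I - 1‖ * ‖Complex.exp (r : ℂ)‖ ≤ ‖I - 1‖ * 1 :=
            mul_le_mul_of_nonneg_left hρ (norm_nonneg _)
        _ ≤ _ := by rw [mul_one]; exact hch2
    refine (norm_add_le _ _).trans ?_
    refine add_le_add ((norm_add_le _ _).trans ?_) hexp
    exact add_le_add hchain h2
  refine htri.trans ?_
  have := aux_fin (u := u) hCb1 hqpos hq1
  linarith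

end Pool.Agent.H264.QC
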